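import Mathlib
import Pool.Agent.H.MP_18d2fb_an.A

set_option autoImplicit false
open Filter Topology

namespace Pool.Agent.Results.MP_18d2fb_an.Neumann

theorem result (𝕜 : Type) [RCLike 𝕜] :
    ∃ (E : Type) (_ : AddCommGroup E) (_ : Module 𝕜 E) (_ : UniformSpace E)
      (_ : IsUniformAddGroup E) (_ : CompleteSpace E) (_ : T2Space E)
      (p : ℕ → Seminorm 𝕜 E), Monotone p ∧ WithSeminorms p ∧
      ∃ U : E →L[𝕜] E, (∀ c : 𝕜, Function.Bijective fun x : E => x - c • U x) ∧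
        (∃ x : E, x ≠ 0) ∧
        ∀ x : E, x ≠ 0 → ∀ c : 𝕜, c ≠ 0 → ∀ s : E,
          ¬ Tendsto (fun n => ∑ k ∈ Finset.range n, c ^ k • U^[k] x) atTop (𝓝 s) := by
  obtain ⟨p, h1, h2⟩ := Pool.Agent.H.MP_18d2fb_an.seminorms 𝕜
  exact ⟨Pool.Agent.H.MP_18d2fb_an.E 𝕜, inferInstance, inferInstance, inferInstance,
    (Pool.Agent.H.MP_18d2fb_an.E 𝕜).toAddSubgroup.isUniformAddGroup,
    inferInstance, inferInstance, p, h1, h2, Pool.Agent.H.MP_18d2fb_an.U 𝕜,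
    Pool.Agent.H.MP_18d2fb_an.bij, Pool.Agent.H.MP_18d2fb_an.nontriv 𝕜,
    Pool.Agent.H.MP_18d2fb_an.diverge⟩

end Pool.Agent.Results.MP_18d2fb_an.Neumann
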